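import Pool.Agent.H.MP_64e20d_co.A

set_option autoImplicit false

namespace Pool.Agent.Results.MP_64e20d_co.NotNeST

open Metric

def Chordal {V : Type} (G : SimpleGraph V) : Prop :=
  ∀ k : ℕ, 4 ≤ k → ¬ ∃ f : ZMod k → V, Function.Injective f ∧
    ∀ i j, G.Adj (f i) (f j) ↔ j = i + 1 ∨ i = j + 1

def SunFree {V : Type} (G : SimpleGraph V) : Prop :=
  ∀ k : ℕ, 3 ≤ k → ¬ ∃ u w : ZMod k → V, Function.Injective u ∧ Function.Injective w ∧
    (∀ i j, ¬ G.Adj (u i) (u j)) ∧ ∀ i j, G.Adj (u i) (w j) ↔ j = i ∨ j = i + 1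

def IsTree (X : Type) [MetricSpace X] : Prop :=
  (∀ (x y : X) (s : ℝ), 0 ≤ s → s ≤ dist x y → ∃ z, dist x z = s ∧ dist z y = dist x y - s) ∧
    ∀ x y z w : X, dist x y + dist z w ≤ max (dist x z + dist y w) (dist x w + dist y z)

def NeSTdiam {V : Type} (G : SimpleGraph V) : Prop :=
  ∃ (X : Type) (_ : MetricSpace X), CompactSpace X ∧ IsTree X ∧
    ∃ (c : V → X) (r t : V → ℝ), (∀ v, 0 < r v ∧ 0 < t v) ∧ ∀ x y, x ≠ y →
      (G.Adj x y ↔ (closedBall (c x) (r x) ∩ closedBall (c y) (r y)).Nonempty ∧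
        min (t x) (t y) ≤ diam (closedBall (c x) (r x) ∩ closedBall (c y) (r y)))

def NeSTrad {V : Type} (G : SimpleGraph V) : Prop :=
  ∃ (X : Type) (_ : MetricSpace X), IsTree X ∧
    ∃ (c : V → X) (r t : V → ℝ), (∀ v, 0 < r v ∧ 0 < t v) ∧ ∀ x y, x ≠ y →
      (G.Adj x y ↔ (closedBall (c x) (r x) ∩ closedBall (c y) (r y)).Nonempty ∧
        min (t x) (t y) ≤ min (min (2 * r x) (2 * r y)) (r x + r y - dist (c x) (c y)))

open Pool.Agent.H.MP_64e20d_co in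
theorem result : ∃ (V : Type) (_ : Fintype V) (G : SimpleGraph V),
    Chordal G ∧ SunFree G ∧ ¬ NeSTdiam G ∧ ¬ NeSTrad G := by
  obtain ⟨B, hB⟩ : ∃ B : ℕ, B = 2 ^ 31 := ⟨_, rfl⟩
  obtain ⟨m, hm⟩ : ∃ m : ℕ, m = 2 ^ 200 := ⟨_, rfl⟩
  have B0 : 0 < B := by rw [hB]; positivity
  have m0 : 0 < m := by rw [hm]; positivity
  have : Nonempty (W B m) := ⟨.inl (⟨0, B0⟩, ⟨0, m0⟩)⟩
  by_contra hn
  refine count B m hB hm (fun σ => ?_)
  have key : NeSTdiam (gr σ) ∨ NeSTrad (gr σ) := by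
    by_contra h
    push Not at h
    refine hn ⟨W B m, inferInstance, gr σ, ?_, ?_, h.1, h.2⟩
    · rintro k hk ⟨f, hf, h⟩
      exact gr_chordal σ k hk f hf h
    · rintro k hk ⟨u, w, hu, hw, h1, h⟩
      exact gr_sun σ k hk u w hu hw h1 h
  rcases key with ⟨X, _, _, ⟨hg, h4⟩, c, r, t, h0, h⟩ | ⟨X, _, ⟨hg, h4⟩, c, r, t, h0, h⟩
  · choose c' r' e1 e2 using fun v => untrunc hg h4 (c v) (r v) (h0 v).1.le
    refine code h4 (gr σ) c' r' t (fun x y hxy => ?_)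
    rw [h x y hxy, diam_iff _ (isClosed_closedBall.inter isClosed_closedBall), e1 x, e1 y]
    exact formula hg h4 _ _ _ _ _ (lt_min (h0 x).2 (h0 y).2) (e2 x) (e2 y)
  · refine code h4 (gr σ) c r t (fun x y hxy => ?_)
    rw [h x y hxy, le_min_iff, le_min_iff, and_assoc]
    refine ⟨fun h => h.2, fun h => ⟨?_, h⟩⟩
    have t0 := lt_min (h0 x).2 (h0 y).2
    have r1 := (h0 x).1
    have r2 := (h0 y).1
    rcases le_total (dist (c x) (c y)) (r x) with h1 | h1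
    · exact ⟨c y, mem_closedBall.2 (by rw [dist_comm]; exact h1), mem_closedBall_self r2.le⟩
    · obtain ⟨z, z1, z2⟩ := hg (c x) (c y) (r x) r1.le h1
      exact ⟨z, mem_closedBall.2 (by rw [dist_comm]; exact z1.le),
        mem_closedBall.2 (by linarith [h.2.2])⟩

end Pool.Agent.Results.MP_64e20d_co.NotNeST
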